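import Pool.Agent.H16.UFL.Cent

/-!
# Universally flexible central extensions of loops with the inverse property

A universally flexible loop which is a central extension (with an arbitrary kernel) of a loop with
the inverse property, for instance of a Moufang loop, has the semi-automorphic inverse property.
-/

namespace Pool.Agent.Results.MP_a08e32_al.CentralSAIP

open H16UFL

universe u

theorem result : ∀ (E Q : Type u) [Lp E] [Lp Q] (p : E → Q),
    IsCentralExt p → IP Q → UF E → SAIP E := by
  intro E Q _ _ p hp hI hU
  exact CExt.saip_of_ip ⟨p, hp.epi, hp.central, hU⟩ hI

end Pool.Agent.Results.MP_a08e32_al.CentralSAIP
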