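import Pool.Agent.H48.UFN.CP

/-!
# Commuting pairs in universally flexible loops

Let `Q` be a universally flexible loop (finite or infinite) and let `x, y` in `Q` satisfy
`x y = y x` (nothing else is assumed). Then `(x (y x))⁻¹ = x⁻¹ (y⁻¹ x⁻¹)`.
-/

namespace Pool.Agent.Results.MP_a08e32_al.CommutingPair

open H16UFL H48UFN

universe u

theorem result : ∀ (Q : Type u) [Lp Q], UF Q → ∀ x y : Q, x * y = y * x →
    iv (x * (y * x)) = iv x * (iv y * iv x) := by
  intro Q _ hU x y hc
  exact cCP hU x y (iv x) (iv y) (y * x) (x * (y * x)) (iv (x * (y * x))) (iv y * iv x)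
    (iv x * (iv y * iv x)) hc rfl (Lp.mul_ldiv _ _) (Lp.mul_ldiv _ _) rfl (Lp.mul_ldiv _ _) rfl rfl

end Pool.Agent.Results.MP_a08e32_al.CommutingPair
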