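import Pool.Agent.H1.UFC.NucL

/-!
# Universally flexible loops with nuclear squares

A universally flexible loop (finite or infinite) whose squares all lie in the left nucleus, or all
lie in the right nucleus, satisfies `(x y)⁻¹ = y⁻¹ x⁻¹` and has the semi-automorphic inverse
property.
-/

namespace Pool.Agent.Results.MP_a08e32_al.NuclearSquares

open H16UFL

universe u

theorem result : ∀ (Q : Type u) [Lp Q], UF Q →
    ((∀ s a b : Q, ((s * s) * a) * b = (s * s) * (a * b)) ∨
      (∀ s a b : Q, (a * b) * (s * s) = a * (b * (s * s)))) → AAIP Q ∧ SAIP Q := by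
  intro Q _ hU h
  exact H1UFC.one_sided_nuclear_squares hU h

end Pool.Agent.Results.MP_a08e32_al.NuclearSquares
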