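import Pool.Agent.H16.UFL.Main

/-!
# Universally flexible loops: the semi-automorphic inverse property for central towers

A universally flexible loop which is obtained from a diassociative loop by finitely many central
extensions whose kernels have no elements of order two has the antiautomorphic inverse property,
and therefore the semi-automorphic inverse property.
-/

namespace Pool.Agent.Results.MP_a08e32_al.TowerSAIP

open H16UFL

universe u

theorem result : ∀ (E : Type u) [i : Lp E], UF E → Tower E i → AAIP E ∧ SAIP E := by
  intro E i hU hT
  exact ⟨aaip_of_tower hT hU, saip_of_aaip hU (aaip_of_tower hT hU)⟩

end Pool.Agent.Results.MP_a08e32_al.TowerSAIP
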